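import Mathlib
set_option autoImplicit false

namespace Pool.Agent.Results.MP_4f9fa7_an.Hexagon

/-- `y` is quasi-orthogonal to the unit vector `x`. -/
def QOrth {X : Type} [NormedAddCommGroup X] [NormedSpace ℝ X] (y x : X) : Prop :=
  ∃ p : StrongDual ℝ X, ‖p‖ = 1 ∧ p x = 1 ∧ p y = 0

noncomputable def zetaPlus (X : Type) [NormedAddCommGroup X] [NormedSpace ℝ X] (e : ℝ) : ℝ :=
  sSup {r | ∃ x y : X, ‖x‖ = 1 ∧ ‖y‖ = 1 ∧ QOrth y x ∧ r = ‖x + e • y‖}

noncomputable def betaPlus (X : Type) [NormedAddCommGroup X] [NormedSpace ℝ X] (e : ℝ) : ℝ :=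
  sSup {r | ∃ x y : X, ‖x‖ = 1 ∧ ‖y‖ = 1 ∧ r = min ‖x + e • y‖ ‖x - e • y‖ - 1}

def Hx : Submodule ℝ (ℝ × ℝ × ℝ) where
  carrier := {v | v.1 + v.2.1 + v.2.2 = 0}
  add_mem' := by
    intro a b ha hb
    simp only [Set.mem_ofPred_eq, Prod.fst_add, Prod.snd_add] at *; linarith
  zero_mem' := by simp
  smul_mem' := by
    intro c a ha
    simp only [Set.mem_ofPred_eq, Prod.smul_fst, Prod.smul_snd, smul_eq_mul] at *
    rw [← mul_add, ← mul_add, ha, mul_zero]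

lemma nrm (v : Hx) : ‖v‖ = max |v.1.1| (max |v.1.2.1| |v.1.2.2|) := rfl

def x0 : Hx := ⟨(1, 0, -1), by show (1 : ℝ) + 0 + -1 = 0; norm_num⟩
def y0 : Hx := ⟨(1, -1, 0), by show (1 : ℝ) + -1 + 0 = 0; norm_num⟩

theorem result : ∃ (X : Type) (_ : NormedAddCommGroup X) (_ : NormedSpace ℝ X),
    CompleteSpace X ∧ 2 ≤ Module.rank ℝ X ∧ ∃ e : ℝ, 0 < e ∧ zetaPlus X e - 1 ≠ betaPlus X e := by
  refine ⟨Hx, inferInstance, inferInstance, FiniteDimensional.complete ℝ _, ?_, 1, one_pos, ?_⟩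
  · have : LinearIndependent ℝ ![x0, y0] := by
      rw [LinearIndependent.pair_iff]
      intro s t h
      have h1 := congrArg (fun v : Hx => v.1.2.1) h
      have h2 := congrArg (fun v : Hx => v.1.2.2) h
      simp [x0, y0] at h1 h2
      exact ⟨h2, h1⟩
    simpa using this.cardinal_lift_le_rank
  have n1 : ‖x0‖ = 1 := by simp [nrm, x0]
  have n2 : ‖y0‖ = 1 := by simp [nrm, y0]
  have h1 : 2 ≤ zetaPlus Hx 1 := by
    refine le_csSup ⟨2, ?_⟩ ⟨x0, y0, n1, n2, ?_, ?_⟩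
    · rintro r ⟨x, y, hx, hy, -, rfl⟩
      have := norm_add_le x ((1 : ℝ) • y)
      rw [one_smul] at *; linarith
    · let p : StrongDual ℝ Hx := -((ContinuousLinearMap.snd ℝ ℝ ℝ).comp
        ((ContinuousLinearMap.snd ℝ ℝ (ℝ × ℝ)).comp Hx.subtypeL))
      have hp : ∀ v, p v = -v.1.2.2 := fun v => rfl
      refine ⟨p, le_antisymm (p.opNorm_le_bound zero_le_one fun v => ?_) ?_, by simp [hp, x0],
        by simp [hp, y0]⟩
      · rw [hp, one_mul, nrm, Real.norm_eq_abs, abs_neg]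
        exact (le_max_right _ _).trans (le_max_right _ _)
      · have := p.le_opNorm x0
        rw [n1, hp] at this
        simpa [x0] using this
    · simp [nrm, x0, y0]; norm_num
  have h2 : betaPlus Hx 1 ≤ 9 / 10 := by
    refine Real.sSup_le ?_ (by norm_num)
    rintro r ⟨x, y, hx, hy, rfl⟩
    by_contra h
    obtain ⟨⟨a, b, c⟩, ha⟩ := x
    obtain ⟨⟨d, e, f⟩, hd⟩ := y
    have ha' : a + b + c = 0 := ha
    have hd' : d + e + f = 0 := hd
    have k1 := hx.le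
    have k2 := hy.le
    rw [not_le, lt_sub_iff_add_lt, lt_min_iff, one_smul, nrm, nrm] at h
    rw [nrm] at k1 k2
    simp only [max_le_iff, abs_le] at k1 k2
    simp only [Submodule.coe_add, Submodule.coe_sub, Prod.fst_add, Prod.snd_add, Prod.fst_sub,
      Prod.snd_sub, lt_max_iff, lt_abs] at h
    obtain ⟨⟨_, _⟩, ⟨_, _⟩, _, _⟩ := k1
    obtain ⟨⟨_, _⟩, ⟨_, _⟩, _, _⟩ := k2
    obtain ⟨(h | h) | (h | h) | h | h, (g | g) | (g | g) | g | g⟩ := h <;> linarith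
  intro h
  linarith

end Pool.Agent.Results.MP_4f9fa7_an.Hexagon
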